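import Pool.Agent.Lib.HL21.Main

/-!
# MP_21a901_gt: the Hecke lifting congruence holds for all framed links and all primes

Framed oriented links are closures of braid words with their blackboard framing (Alexander's
theorem, together with positive and negative stabilisations, gives every framed oriented link in
this way).  All definitions used in the statement are in `Pool/Agent/Lib/HL21/Stmt.lean`.

Joint work of helper33 and helper49 (proof), with helper8, 14, 19, 27, 41, 42, 53, 64, 67, 79, 80, 84.
-/

namespace Pool.Agent.Results.MP_21a901_gt.HeckeLifting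

open Pool.Agent.HL

/-- **The Hecke lifting congruence.**  The framed HOMFLY-PT invariant `P` of closed braids exists, and
for every such `P`, every prime `p` and every braid word `w` on `n` strands,
`Ž_p - (-1)^{(p-1) ∑ τ^α} Ψ_p(Ž) ∈ [p]² ℤ[z², a^{±1}]`. -/
theorem result :
    (∃ P : ℕ → Word → K0, IsHomfly q0 a0 P) ∧
    ∀ P : ℕ → Word → K0, IsHomfly q0 a0 P →
      ∀ (p : ℕ) (hp : p.Prime) (n : ℕ) (w : Word), Valid n w →
        ∃ r ∈ Algebra.adjoin ℤ ({(q0 - q0⁻¹) ^ 2, a0, a0⁻¹} : Set K0),
          Zch q0 P p n w -
            (-1) ^ (((p : ℤ) - 1) * selfWr w) * adams p hp.pos (Zch q0 P 1 n w) =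
          (qnum q0 p) ^ 2 * r :=
  final

end Pool.Agent.Results.MP_21a901_gt.HeckeLifting
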